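import Mathlib
import Pool.Agent.X60.SEM

/-!
# Super edge-magic ladders of even length

For even `n ≥ 2` the ladder `L_n = P_n □ P_2` is super edge-magic if and only if `n ≥ 4`.
-/

namespace Pool.Agent.Results.MP_4fbecc_co.EvenLadders

open SimpleGraph Pool.Agent.X60.SEM

/-- the ladder `L_n` -/
abbrev ladder (n : ℕ) : SimpleGraph (Fin n × Fin 2) := pathGraph n □ pathGraph 2

/-- ends of the edges of the ladder with `m + 1` rungs -/
def ea (m : ℕ) : (Fin m × Fin 2) ⊕ Fin (m + 1) → Fin (m + 1) × Fin 2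
  | .inl (i, b) => (i.castSucc, b)
  | .inr i => (i, 0)

/-- ends of the edges of the ladder with `m + 1` rungs -/
def eb (m : ℕ) : (Fin m × Fin 2) ⊕ Fin (m + 1) → Fin (m + 1) × Fin 2
  | .inl (i, b) => (i.succ, b)
  | .inr i => (i, 1)

theorem adj_e (m : ℕ) (e) : (ladder (m + 1)).Adj (ea m e) (eb m e) := by
  rcases e with ⟨i, b⟩ | i
  · rw [boxProd_adj]
    left
    refine ⟨?_, rfl⟩
    rw [pathGraph_adj]
    left
    simp [ea, eb]
  · rw [boxProd_adj]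
    right
    refine ⟨?_, rfl⟩
    rw [pathGraph_adj]
    left
    simp [ea, eb]

theorem surj_e (m : ℕ) (x y) (h : (ladder (m + 1)).Adj x y) :
    ∃ e, (x = ea m e ∧ y = eb m e) ∨ (x = eb m e ∧ y = ea m e) := by
  obtain ⟨i, b⟩ := x
  obtain ⟨j, c⟩ := y
  rw [boxProd_adj, pathGraph_adj, pathGraph_adj] at h
  rcases h with ⟨h1 | h1, h2⟩ | ⟨h1 | h1, h2⟩
  · dsimp only at h1 h2
    subst h2
    have := j.isLt
    refine ⟨.inl (⟨i, by omega⟩, b), Or.inl ⟨rfl, ?_⟩⟩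
    simp only [eb]
    exact Prod.ext (Fin.ext h1.symm) rfl
  · dsimp only at h1 h2
    subst h2
    have := i.isLt
    refine ⟨.inl (⟨j, by omega⟩, b), Or.inr ⟨?_, rfl⟩⟩
    simp only [eb]
    exact Prod.ext (Fin.ext h1.symm) rfl
  · dsimp only at h1 h2
    subst h2
    have := c.isLt
    refine ⟨.inr i, Or.inl ⟨?_, ?_⟩⟩
    · exact Prod.ext rfl (Fin.ext (show b.val = 0 by omega))
    · exact Prod.ext rfl (Fin.ext (show c.val = 1 by omega))
  · dsimp only at h1 h2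
    subst h2
    have := b.isLt
    refine ⟨.inr i, Or.inr ⟨?_, ?_⟩⟩
    · exact Prod.ext rfl (Fin.ext (show b.val = 1 by omega))
    · exact Prod.ext rfl (Fin.ext (show c.val = 0 by omega))

/-- A criterion for ladders. -/
theorem ladder_sem (m : ℕ) (U V : ℕ → ℕ) (s : ℕ)
    (hU : ∀ i < m + 1, 1 ≤ U i ∧ U i ≤ 2 * (m + 1))
    (hV : ∀ i < m + 1, 1 ≤ V i ∧ V i ≤ 2 * (m + 1))
    (hUU : ∀ i < m + 1, ∀ j < m + 1, U i = U j → i = j)
    (hVV : ∀ i < m + 1, ∀ j < m + 1, V i = V j → i = j)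
    (hUV : ∀ i < m + 1, ∀ j < m + 1, U i ≠ V j)
    (su sv sr : ℕ → ℕ) (hsu : ∀ i < m, U i + U (i + 1) = su i)
    (hsv : ∀ i < m, V i + V (i + 1) = sv i) (hsr : ∀ i < m + 1, U i + V i = sr i)
    (ru : ∀ i < m, s ≤ su i ∧ su i < s + (3 * m + 1))
    (rv : ∀ i < m, s ≤ sv i ∧ sv i < s + (3 * m + 1))
    (rr : ∀ i < m + 1, s ≤ sr i ∧ sr i < s + (3 * m + 1))
    (huu : ∀ i < m, ∀ j < m, su i = su j → i = j)
    (hvv : ∀ i < m, ∀ j < m, sv i = sv j → i = j)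
    (hrr : ∀ i < m + 1, ∀ j < m + 1, sr i = sr j → i = j)
    (huv : ∀ i < m, ∀ j < m, su i ≠ sv j)
    (hur : ∀ i < m, ∀ j < m + 1, su i ≠ sr j)
    (hvr : ∀ i < m, ∀ j < m + 1, sv i ≠ sr j) : SuperEdgeMagic (ladder (m + 1)) := by
  let g : Fin (m + 1) × Fin 2 → ℕ := fun x => if x.2 = 0 then U x.1 else V x.1
  have hg0 : ∀ i, g (i, 0) = U i := fun i => by simp [g]
  have hg1 : ∀ i, g (i, 1) = V i := fun i => by simp [g]
  have hb : ∀ b : Fin 2, b = 0 ∨ b = 1 := by decide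
  have t0 : ∀ i : Fin m, g (ea m (.inl (i, 0))) + g (eb m (.inl (i, 0))) = su i := by
    intro i
    simp only [ea, eb, hg0]
    rw [← hsu i i.isLt]
    rfl
  have t1 : ∀ i : Fin m, g (ea m (.inl (i, 1))) + g (eb m (.inl (i, 1))) = sv i := by
    intro i
    simp only [ea, eb, hg1]
    rw [← hsv i i.isLt]
    rfl
  have t2 : ∀ i : Fin (m + 1), g (ea m (.inr i)) + g (eb m (.inr i)) = sr i := by
    intro i
    simp only [ea, eb, hg0, hg1]
    rw [← hsr i i.isLt]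
  have hcV : Nat.card (Fin (m + 1) × Fin 2) = 2 * (m + 1) := by
    rw [Nat.card_prod, Nat.card_eq_fintype_card, Nat.card_eq_fintype_card, Fintype.card_fin,
      Fintype.card_fin]
    omega
  have hcE : Nat.card ((Fin m × Fin 2) ⊕ Fin (m + 1)) = 3 * m + 1 := by
    rw [Nat.card_sum, Nat.card_prod, Nat.card_eq_fintype_card, Nat.card_eq_fintype_card,
      Nat.card_eq_fintype_card, Fintype.card_fin, Fintype.card_fin, Fintype.card_fin]
    omega
  apply sem_of_index (ladder (m + 1)) (ea m) (eb m) (adj_e m) (surj_e m) g _ _ s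
  · -- distinct sums
    rintro (⟨i, b⟩ | i) (⟨j, c⟩ | j) h
    · dsimp only at h
      rcases hb b with rfl | rfl <;> rcases hb c with rfl | rfl
      · rw [t0, t0] at h
        rw [Fin.ext (huu i i.isLt j j.isLt h)]
      · rw [t0, t1] at h
        exact absurd h (huv i i.isLt j j.isLt)
      · rw [t1, t0] at h
        exact absurd h.symm (huv j j.isLt i i.isLt)
      · rw [t1, t1] at h
        rw [Fin.ext (hvv i i.isLt j j.isLt h)]
    · dsimp only at h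
      rcases hb b with rfl | rfl
      · rw [t0, t2] at h
        exact absurd h (hur i i.isLt j j.isLt)
      · rw [t1, t2] at h
        exact absurd h (hvr i i.isLt j j.isLt)
    · dsimp only at h
      rcases hb c with rfl | rfl
      · rw [t2, t0] at h
        exact absurd h.symm (hur j j.isLt i i.isLt)
      · rw [t2, t1] at h
        exact absurd h.symm (hvr j j.isLt i i.isLt)
    · dsimp only at h
      rw [t2, t2] at h
      rw [Fin.ext (hrr i i.isLt j j.isLt h)]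
  · rw [hcE]
    rintro (⟨i, b⟩ | i)
    · rcases hb b with rfl | rfl
      · rw [t0]; exact ru i i.isLt
      · rw [t1]; exact rv i i.isLt
    · rw [t2]; exact rr i i.isLt
  · rintro ⟨i, b⟩ ⟨j, c⟩ h
    rcases hb b with rfl | rfl <;> rcases hb c with rfl | rfl
    · rw [hg0, hg0] at h
      rw [Fin.ext (hUU i i.isLt j j.isLt h)]
    · rw [hg0, hg1] at h
      exact absurd h (hUV i i.isLt j j.isLt)
    · rw [hg1, hg0] at h
      exact absurd h.symm (hUV j j.isLt i i.isLt)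
    · rw [hg1, hg1] at h
      rw [Fin.ext (hVV i i.isLt j j.isLt h)]
  · rw [hcV]
    rintro ⟨i, b⟩
    rcases hb b with rfl | rfl
    · rw [hg0]; exact hU i i.isLt
    · rw [hg1]; exact hV i i.isLt

/-! ### `n = 4 k + 4`, `k ≥ 1` -/

section zero

variable (k : ℕ)

def U0 (i : ℕ) : ℕ :=
  if i < 2 * k then (if i % 2 = 0 then 2 * k + 3 + i / 2 else 2 + i / 2)
  else if i = 2 * k then 3 * k + 3 else if i = 2 * k + 1 then 7 * k + 7
  else if i < 4 * k + 2 then (if i % 2 = 0 then i / 2 + 1 else 2 * k + 3 + i / 2)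
  else if i = 4 * k + 2 then 2 * k + 2 else 4 * k + 4

def V0 (i : ℕ) : ℕ :=
  if i < 2 * k then (if i % 2 = 0 then 4 * k + 5 + i / 2 else 6 * k + 7 + i / 2)
  else if i = 2 * k then 7 * k + 8 else if i = 2 * k + 1 then 5 * k + 5
  else if i < 4 * k + 2 then (if i % 2 = 0 then 6 * k + 8 + i / 2 else 4 * k + 5 + i / 2)
  else if i = 4 * k + 2 then 6 * k + 6 else 1

def su0 (i : ℕ) : ℕ :=
  if i < 2 * k then 2 * k + 5 + i else if i = 2 * k then 10 * k + 10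
  else if i = 2 * k + 1 then 8 * k + 9 else 2 * k + 4 + i

def sv0 (i : ℕ) : ℕ :=
  if i + 1 < 2 * k then 10 * k + 12 + i else if i + 1 = 2 * k then 14 * k + 14
  else if i < 4 * k + 1 then 10 * k + 13 + i else if i = 4 * k + 1 then 12 * k + 11 else 6 * k + 7

def sr0 (i : ℕ) : ℕ :=
  if i < 2 * k then 6 * k + 8 + i else if i = 2 * k then 10 * k + 11
  else if i = 2 * k + 1 then 12 * k + 12
  else if i < 4 * k + 2 then (if i % 2 = 0 then 6 * k + 9 + i else 6 * k + 7 + i)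
  else if i = 4 * k + 2 then 8 * k + 8 else 4 * k + 5

theorem U0_spec (i : ℕ) : (i < 2 * k ∧ i % 2 = 0 ∧ U0 k i = 2 * k + 3 + i / 2) ∨
    (i < 2 * k ∧ i % 2 = 1 ∧ U0 k i = 2 + i / 2) ∨ (i = 2 * k ∧ U0 k i = 3 * k + 3) ∨
    (i = 2 * k + 1 ∧ U0 k i = 7 * k + 7) ∨
    (2 * k + 2 ≤ i ∧ i < 4 * k + 2 ∧ i % 2 = 0 ∧ U0 k i = i / 2 + 1) ∨
    (2 * k + 2 ≤ i ∧ i < 4 * k + 2 ∧ i % 2 = 1 ∧ U0 k i = 2 * k + 3 + i / 2) ∨
    (i = 4 * k + 2 ∧ U0 k i = 2 * k + 2) ∨ (4 * k + 3 ≤ i ∧ U0 k i = 4 * k + 4) := by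
  unfold U0; split_ifs <;> omega

theorem V0_spec (i : ℕ) : (i < 2 * k ∧ i % 2 = 0 ∧ V0 k i = 4 * k + 5 + i / 2) ∨
    (i < 2 * k ∧ i % 2 = 1 ∧ V0 k i = 6 * k + 7 + i / 2) ∨ (i = 2 * k ∧ V0 k i = 7 * k + 8) ∨
    (i = 2 * k + 1 ∧ V0 k i = 5 * k + 5) ∨
    (2 * k + 2 ≤ i ∧ i < 4 * k + 2 ∧ i % 2 = 0 ∧ V0 k i = 6 * k + 8 + i / 2) ∨
    (2 * k + 2 ≤ i ∧ i < 4 * k + 2 ∧ i % 2 = 1 ∧ V0 k i = 4 * k + 5 + i / 2) ∨
    (i = 4 * k + 2 ∧ V0 k i = 6 * k + 6) ∨ (4 * k + 3 ≤ i ∧ V0 k i = 1) := by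
  unfold V0; split_ifs <;> omega

theorem su0_spec (i : ℕ) : (i < 2 * k ∧ su0 k i = 2 * k + 5 + i) ∨
    (i = 2 * k ∧ su0 k i = 10 * k + 10) ∨ (i = 2 * k + 1 ∧ su0 k i = 8 * k + 9) ∨
    (2 * k + 2 ≤ i ∧ su0 k i = 2 * k + 4 + i) := by
  unfold su0; split_ifs <;> omega

theorem sv0_spec (i : ℕ) : (i + 1 < 2 * k ∧ sv0 k i = 10 * k + 12 + i) ∨
    (i + 1 = 2 * k ∧ sv0 k i = 14 * k + 14) ∨
    (2 * k ≤ i ∧ i < 4 * k + 1 ∧ sv0 k i = 10 * k + 13 + i) ∨
    (i = 4 * k + 1 ∧ sv0 k i = 12 * k + 11) ∨ (4 * k + 2 ≤ i ∧ sv0 k i = 6 * k + 7) := by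
  unfold sv0; split_ifs <;> omega

theorem sr0_spec (i : ℕ) : (i < 2 * k ∧ sr0 k i = 6 * k + 8 + i) ∨
    (i = 2 * k ∧ sr0 k i = 10 * k + 11) ∨ (i = 2 * k + 1 ∧ sr0 k i = 12 * k + 12) ∨
    (2 * k + 2 ≤ i ∧ i < 4 * k + 2 ∧ i % 2 = 0 ∧ sr0 k i = 6 * k + 9 + i) ∨
    (2 * k + 2 ≤ i ∧ i < 4 * k + 2 ∧ i % 2 = 1 ∧ sr0 k i = 6 * k + 7 + i) ∨
    (i = 4 * k + 2 ∧ sr0 k i = 8 * k + 8) ∨ (4 * k + 3 ≤ i ∧ sr0 k i = 4 * k + 5) := by
  unfold sr0; split_ifs <;> omega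

theorem sem_zero (hk : 1 ≤ k) : SuperEdgeMagic (ladder (4 * k + 3 + 1)) := by
  apply ladder_sem (4 * k + 3) (U0 k) (V0 k) (2 * k + 5) (su := su0 k) (sv := sv0 k) (sr := sr0 k)
  · intro i hi; have := U0_spec k i; omega
  · intro i hi; have := V0_spec k i; omega
  · intro i hi j hj; have := U0_spec k i; have := U0_spec k j; omega
  · intro i hi j hj; have := V0_spec k i; have := V0_spec k j; omega
  · intro i hi j hj; have := U0_spec k i; have := V0_spec k j; omega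
  · intro i hi
    have := U0_spec k i; have := U0_spec k (i + 1); have := su0_spec k i; omega
  · intro i hi
    have := V0_spec k i; have := V0_spec k (i + 1); have := sv0_spec k i; omega
  · intro i hi
    have := U0_spec k i; have := V0_spec k i; have := sr0_spec k i; omega
  · intro i hi; have := su0_spec k i; omega
  · intro i hi; have := sv0_spec k i; omega
  · intro i hi; have := sr0_spec k i; omega
  · intro i hi j hj; have := su0_spec k i; have := su0_spec k j; omega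
  · intro i hi j hj; have := sv0_spec k i; have := sv0_spec k j; omega
  · intro i hi j hj; have := sr0_spec k i; have := sr0_spec k j; omega
  · intro i hi j hj; have := su0_spec k i; have := sv0_spec k j; omega
  · intro i hi j hj; have := su0_spec k i; have := sr0_spec k j; omega
  · intro i hi j hj; have := sv0_spec k i; have := sr0_spec k j; omega

end zero

/-! ### `n = 4 k + 6`, `k ≥ 1` -/

section two

variable (k : ℕ)

def U2 (i : ℕ) : ℕ :=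
  if i < 2 * k then (if i % 2 = 0 then 1 + i / 2 else 2 * k + 5 + i / 2)
  else if i = 2 * k then 3 * k + 5 else if i = 2 * k + 1 then 7 * k + 10
  else if i < 4 * k + 2 then (if i % 2 = 0 then 2 * k + 5 + i / 2 else i / 2 + 1)
  else if i = 4 * k + 2 then 8 * k + 12 else if i = 4 * k + 3 then 6 * k + 8
  else if i = 4 * k + 4 then 4 * k + 6 else 2 * k + 4

def V2 (i : ℕ) : ℕ :=
  if i < 2 * k then (if i % 2 = 0 then 6 * k + 10 + i / 2 else 4 * k + 7 + i / 2)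
  else if i = 2 * k then k + 1 else if i = 2 * k + 1 then 7 * k + 11
  else if i < 4 * k + 2 then (if i % 2 = 0 then 4 * k + 6 + i / 2 else 6 * k + 11 + i / 2)
  else if i = 4 * k + 2 then 6 * k + 7 else if i = 4 * k + 3 then 6 * k + 9
  else if i = 4 * k + 4 then 2 * k + 2 else 2 * k + 3

def su2 (i : ℕ) : ℕ :=
  if i + 1 < 2 * k then 2 * k + 6 + i else if i + 1 = 2 * k then 6 * k + 9
  else if i = 2 * k then 10 * k + 15 else if i = 2 * k + 1 then 10 * k + 16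
  else if i < 4 * k + 1 then 2 * k + 6 + i else if i = 4 * k + 1 then 10 * k + 13
  else if i = 4 * k + 2 then 14 * k + 20 else if i = 4 * k + 3 then 10 * k + 14 else 6 * k + 10

def sv2 (i : ℕ) : ℕ :=
  if i + 1 < 2 * k then 10 * k + 17 + i else if i + 1 = 2 * k then 6 * k + 7
  else if i = 2 * k then 8 * k + 12 else if i < 4 * k + 2 then 10 * k + 17 + i
  else if i = 4 * k + 2 then 12 * k + 16 else if i = 4 * k + 3 then 8 * k + 11 else 4 * k + 5

def sr2 (i : ℕ) : ℕ :=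
  if i < 2 * k then 6 * k + 11 + i else if i = 2 * k then 4 * k + 6
  else if i = 2 * k + 1 then 14 * k + 21 else if i < 4 * k + 2 then 6 * k + 11 + i
  else if i = 4 * k + 2 then 14 * k + 19 else if i = 4 * k + 3 then 12 * k + 17
  else if i = 4 * k + 4 then 6 * k + 8 else 4 * k + 7

theorem U2_spec (i : ℕ) : (i < 2 * k ∧ i % 2 = 0 ∧ U2 k i = 1 + i / 2) ∨
    (i < 2 * k ∧ i % 2 = 1 ∧ U2 k i = 2 * k + 5 + i / 2) ∨ (i = 2 * k ∧ U2 k i = 3 * k + 5) ∨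
    (i = 2 * k + 1 ∧ U2 k i = 7 * k + 10) ∨
    (2 * k + 2 ≤ i ∧ i < 4 * k + 2 ∧ i % 2 = 0 ∧ U2 k i = 2 * k + 5 + i / 2) ∨
    (2 * k + 2 ≤ i ∧ i < 4 * k + 2 ∧ i % 2 = 1 ∧ U2 k i = i / 2 + 1) ∨
    (i = 4 * k + 2 ∧ U2 k i = 8 * k + 12) ∨ (i = 4 * k + 3 ∧ U2 k i = 6 * k + 8) ∨
    (i = 4 * k + 4 ∧ U2 k i = 4 * k + 6) ∨ (4 * k + 5 ≤ i ∧ U2 k i = 2 * k + 4) := by
  unfold U2; split_ifs <;> omega

theorem V2_spec (i : ℕ) : (i < 2 * k ∧ i % 2 = 0 ∧ V2 k i = 6 * k + 10 + i / 2) ∨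
    (i < 2 * k ∧ i % 2 = 1 ∧ V2 k i = 4 * k + 7 + i / 2) ∨ (i = 2 * k ∧ V2 k i = k + 1) ∨
    (i = 2 * k + 1 ∧ V2 k i = 7 * k + 11) ∨
    (2 * k + 2 ≤ i ∧ i < 4 * k + 2 ∧ i % 2 = 0 ∧ V2 k i = 4 * k + 6 + i / 2) ∨
    (2 * k + 2 ≤ i ∧ i < 4 * k + 2 ∧ i % 2 = 1 ∧ V2 k i = 6 * k + 11 + i / 2) ∨
    (i = 4 * k + 2 ∧ V2 k i = 6 * k + 7) ∨ (i = 4 * k + 3 ∧ V2 k i = 6 * k + 9) ∨
    (i = 4 * k + 4 ∧ V2 k i = 2 * k + 2) ∨ (4 * k + 5 ≤ i ∧ V2 k i = 2 * k + 3) := by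
  unfold V2; split_ifs <;> omega

theorem su2_spec (i : ℕ) : (i + 1 < 2 * k ∧ su2 k i = 2 * k + 6 + i) ∨
    (i + 1 = 2 * k ∧ su2 k i = 6 * k + 9) ∨ (i = 2 * k ∧ su2 k i = 10 * k + 15) ∨
    (i = 2 * k + 1 ∧ su2 k i = 10 * k + 16) ∨
    (2 * k + 2 ≤ i ∧ i < 4 * k + 1 ∧ su2 k i = 2 * k + 6 + i) ∨
    (i = 4 * k + 1 ∧ su2 k i = 10 * k + 13) ∨ (i = 4 * k + 2 ∧ su2 k i = 14 * k + 20) ∨
    (i = 4 * k + 3 ∧ su2 k i = 10 * k + 14) ∨ (4 * k + 4 ≤ i ∧ su2 k i = 6 * k + 10) := by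
  unfold su2; split_ifs <;> omega

theorem sv2_spec (i : ℕ) : (i + 1 < 2 * k ∧ sv2 k i = 10 * k + 17 + i) ∨
    (i + 1 = 2 * k ∧ sv2 k i = 6 * k + 7) ∨ (i = 2 * k ∧ sv2 k i = 8 * k + 12) ∨
    (2 * k + 1 ≤ i ∧ i < 4 * k + 2 ∧ sv2 k i = 10 * k + 17 + i) ∨
    (i = 4 * k + 2 ∧ sv2 k i = 12 * k + 16) ∨ (i = 4 * k + 3 ∧ sv2 k i = 8 * k + 11) ∨
    (4 * k + 4 ≤ i ∧ sv2 k i = 4 * k + 5) := by
  unfold sv2; split_ifs <;> omega

theorem sr2_spec (i : ℕ) : (i < 2 * k ∧ sr2 k i = 6 * k + 11 + i) ∨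
    (i = 2 * k ∧ sr2 k i = 4 * k + 6) ∨ (i = 2 * k + 1 ∧ sr2 k i = 14 * k + 21) ∨
    (2 * k + 2 ≤ i ∧ i < 4 * k + 2 ∧ sr2 k i = 6 * k + 11 + i) ∨
    (i = 4 * k + 2 ∧ sr2 k i = 14 * k + 19) ∨ (i = 4 * k + 3 ∧ sr2 k i = 12 * k + 17) ∨
    (i = 4 * k + 4 ∧ sr2 k i = 6 * k + 8) ∨ (4 * k + 5 ≤ i ∧ sr2 k i = 4 * k + 7) := by
  unfold sr2; split_ifs <;> omega

theorem sem_two (hk : 1 ≤ k) : SuperEdgeMagic (ladder (4 * k + 5 + 1)) := by
  apply ladder_sem (4 * k + 5) (U2 k) (V2 k) (2 * k + 6) (su := su2 k) (sv := sv2 k) (sr := sr2 k)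
  · intro i hi; have := U2_spec k i; omega
  · intro i hi; have := V2_spec k i; omega
  · intro i hi j hj; have := U2_spec k i; have := U2_spec k j; omega
  · intro i hi j hj; have := V2_spec k i; have := V2_spec k j; omega
  · intro i hi j hj; have := U2_spec k i; have := V2_spec k j; omega
  · intro i hi
    have := U2_spec k i; have := U2_spec k (i + 1); have := su2_spec k i; omega
  · intro i hi
    have := V2_spec k i; have := V2_spec k (i + 1); have := sv2_spec k i; omega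
  · intro i hi
    have := U2_spec k i; have := V2_spec k i; have := sr2_spec k i; omega
  · intro i hi; have := su2_spec k i; omega
  · intro i hi; have := sv2_spec k i; omega
  · intro i hi; have := sr2_spec k i; omega
  · intro i hi j hj; have := su2_spec k i; have := su2_spec k j; omega
  · intro i hi j hj; have := sv2_spec k i; have := sv2_spec k j; omega
  · intro i hi j hj; have := sr2_spec k i; have := sr2_spec k j; omega
  · intro i hi j hj; have := su2_spec k i; have := sv2_spec k j; omega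
  · intro i hi j hj; have := su2_spec k i; have := sr2_spec k j; omega
  · intro i hi j hj; have := sv2_spec k i; have := sr2_spec k j; omega

end two

/-! ### The three small cases -/

def lst (l : List ℕ) (i : ℕ) : ℕ := l.getD i 0

theorem sem_small (m : ℕ) (u v : List ℕ) (s : ℕ)
    (hU : ∀ i < m + 1, 1 ≤ lst u i ∧ lst u i ≤ 2 * (m + 1))
    (hV : ∀ i < m + 1, 1 ≤ lst v i ∧ lst v i ≤ 2 * (m + 1))
    (hUU : ∀ i < m + 1, ∀ j < m + 1, lst u i = lst u j → i = j)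
    (hVV : ∀ i < m + 1, ∀ j < m + 1, lst v i = lst v j → i = j)
    (hUV : ∀ i < m + 1, ∀ j < m + 1, lst u i ≠ lst v j)
    (ru : ∀ i < m, s ≤ lst u i + lst u (i + 1) ∧ lst u i + lst u (i + 1) < s + (3 * m + 1))
    (rv : ∀ i < m, s ≤ lst v i + lst v (i + 1) ∧ lst v i + lst v (i + 1) < s + (3 * m + 1))
    (rr : ∀ i < m + 1, s ≤ lst u i + lst v i ∧ lst u i + lst v i < s + (3 * m + 1))
    (huu : ∀ i < m, ∀ j < m, lst u i + lst u (i + 1) = lst u j + lst u (j + 1) → i = j)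
    (hvv : ∀ i < m, ∀ j < m, lst v i + lst v (i + 1) = lst v j + lst v (j + 1) → i = j)
    (hrr : ∀ i < m + 1, ∀ j < m + 1, lst u i + lst v i = lst u j + lst v j → i = j)
    (huv : ∀ i < m, ∀ j < m, lst u i + lst u (i + 1) ≠ lst v j + lst v (j + 1))
    (hur : ∀ i < m, ∀ j < m + 1, lst u i + lst u (i + 1) ≠ lst u j + lst v j)
    (hvr : ∀ i < m, ∀ j < m + 1, lst v i + lst v (i + 1) ≠ lst u j + lst v j) :
    SuperEdgeMagic (ladder (m + 1)) :=
  ladder_sem m (lst u) (lst v) s hU hV hUU hVV hUV _ _ _ (fun _ _ => rfl) (fun _ _ => rfl)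
    (fun _ _ => rfl) ru rv rr huu hvv hrr huv hur hvr

theorem sem_four : SuperEdgeMagic (ladder (3 + 1)) := by
  apply sem_small 3 [5, 1, 3, 4] [6, 7, 2, 8] 4 <;> decide

theorem sem_six : SuperEdgeMagic (ladder (5 + 1)) := by
  apply sem_small 5 [4, 1, 9, 3, 10, 7] [11, 5, 2, 6, 8, 12] 5 <;> decide

theorem not_sem_two : ¬ SuperEdgeMagic (ladder (1 + 1)) := by
  rintro ⟨f, hinj, hr, hv, σ, hσ⟩
  have hcV : Nat.card (Fin (1 + 1) × Fin 2) = 4 := by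
    rw [Nat.card_eq_fintype_card]; rfl
  have hcE : Nat.card (ladder (1 + 1)).edgeSet ≤ 4 := by
    let e : (Fin 1 × Fin 2) ⊕ Fin (1 + 1) → (ladder (1 + 1)).edgeSet := fun i =>
      ⟨s(ea 1 i, eb 1 i), adj_e 1 i⟩
    have he : Function.Surjective e := by
      rintro ⟨x, hx⟩
      induction x using Sym2.ind with
      | _ x y =>
        obtain ⟨i, ⟨rfl, rfl⟩ | ⟨rfl, rfl⟩⟩ := surj_e 1 x y hx
        · exact ⟨i, rfl⟩
        · exact ⟨i, Subtype.ext Sym2.eq_swap⟩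
    have := Nat.card_le_card_of_surjective e he
    rwa [show Nat.card ((Fin 1 × Fin 2) ⊕ Fin (1 + 1)) = 4 by
      rw [Nat.card_eq_fintype_card]; rfl] at this
  rw [hcV] at hv hr
  have hvm : ∀ v, 1 ≤ f (Sum.inl v) ∧ f (Sum.inl v) ≤ 4 := by
    intro v
    have : f (Sum.inl v) ∈ Set.range (fun v => f (Sum.inl v)) := ⟨v, rfl⟩
    rw [hv] at this
    exact this
  have hem : ∀ e, 5 ≤ f (Sum.inr e) ∧ f (Sum.inr e) ≤ 8 := by
    intro e
    have h1 : f (Sum.inr e) ∈ Set.range f := ⟨_, rfl⟩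
    rw [hr] at h1
    obtain ⟨h1, h2⟩ := h1
    constructor
    · by_contra hcon
      have h3 : f (Sum.inr e) ∈ Set.Icc 1 4 := ⟨h1, by omega⟩
      rw [← hv] at h3
      obtain ⟨v, hv'⟩ := h3
      exact absurd (hinj hv') (by simp)
    · omega
  have hne : ∀ x y, x ≠ y → f x ≠ f y := fun x y h h' => h (hinj h')
  have a1 : (ladder (1 + 1)).Adj (0, 0) (1, 0) := adj_e 1 (.inl (0, 0))
  have a2 : (ladder (1 + 1)).Adj (0, 1) (1, 1) := adj_e 1 (.inl (0, 1))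
  have a3 : (ladder (1 + 1)).Adj (0, 0) (0, 1) := adj_e 1 (.inr 0)
  have a4 : (ladder (1 + 1)).Adj (1, 0) (1, 1) := adj_e 1 (.inr 1)
  let E1 : (ladder (1 + 1)).edgeSet := ⟨s((0, 0), (1, 0)), a1⟩
  let E2 : (ladder (1 + 1)).edgeSet := ⟨s((0, 1), (1, 1)), a2⟩
  let E3 : (ladder (1 + 1)).edgeSet := ⟨s((0, 0), (0, 1)), a3⟩
  let E4 : (ladder (1 + 1)).edgeSet := ⟨s((1, 0), (1, 1)), a4⟩
  have s1 : f (.inl (0, 0)) + f (.inl (1, 0)) + f (.inr E1) = σ := hσ _ _ a1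
  have s2 : f (.inl (0, 1)) + f (.inl (1, 1)) + f (.inr E2) = σ := hσ _ _ a2
  have s3 : f (.inl (0, 0)) + f (.inl (0, 1)) + f (.inr E3) = σ := hσ _ _ a3
  have s4 : f (.inl (1, 0)) + f (.inl (1, 1)) + f (.inr E4) = σ := hσ _ _ a4
  have m1 := hvm (0, 0)
  have m2 := hvm (0, 1)
  have m3 := hvm (1, 0)
  have m4 := hvm (1, 1)
  have e1 := hem E1
  have e2 := hem E2
  have e3 := hem E3
  have e4 := hem E4
  have d1 := hne (.inl (0, 0)) (.inl (0, 1)) (by simp)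
  have d2 := hne (.inl (0, 0)) (.inl (1, 0)) (by simp)
  have d3 := hne (.inl (0, 0)) (.inl (1, 1)) (by simp)
  have d4 := hne (.inl (0, 1)) (.inl (1, 0)) (by simp)
  have d5 := hne (.inl (0, 1)) (.inl (1, 1)) (by simp)
  have d6 := hne (.inl (1, 0)) (.inl (1, 1)) (by simp)
  have g1 := hne (.inr E1) (.inr E2) (fun h =>
    absurd (congrArg Subtype.val (Sum.inr_injective h))
      (show ¬ (s((0, 0), (1, 0)) : Sym2 (Fin (1 + 1) × Fin 2)) = s((0, 1), (1, 1)) by decide))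
  have g2 := hne (.inr E1) (.inr E3) (fun h =>
    absurd (congrArg Subtype.val (Sum.inr_injective h))
      (show ¬ (s((0, 0), (1, 0)) : Sym2 (Fin (1 + 1) × Fin 2)) = s((0, 0), (0, 1)) by decide))
  have g3 := hne (.inr E1) (.inr E4) (fun h =>
    absurd (congrArg Subtype.val (Sum.inr_injective h))
      (show ¬ (s((0, 0), (1, 0)) : Sym2 (Fin (1 + 1) × Fin 2)) = s((1, 0), (1, 1)) by decide))
  have g4 := hne (.inr E2) (.inr E3) (fun h =>
    absurd (congrArg Subtype.val (Sum.inr_injective h))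
      (show ¬ (s((0, 1), (1, 1)) : Sym2 (Fin (1 + 1) × Fin 2)) = s((0, 0), (0, 1)) by decide))
  have g5 := hne (.inr E2) (.inr E4) (fun h =>
    absurd (congrArg Subtype.val (Sum.inr_injective h))
      (show ¬ (s((0, 1), (1, 1)) : Sym2 (Fin (1 + 1) × Fin 2)) = s((1, 0), (1, 1)) by decide))
  have g6 := hne (.inr E3) (.inr E4) (fun h =>
    absurd (congrArg Subtype.val (Sum.inr_injective h))
      (show ¬ (s((0, 0), (0, 1)) : Sym2 (Fin (1 + 1) × Fin 2)) = s((1, 0), (1, 1)) by decide))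
  generalize f (.inl (0, 0)) = v1 at *
  generalize f (.inl (0, 1)) = v2 at *
  generalize f (.inl (1, 0)) = v3 at *
  generalize f (.inl (1, 1)) = v4 at *
  generalize f (.inr E1) = w1 at *
  generalize f (.inr E2) = w2 at *
  generalize f (.inr E3) = w3 at *
  generalize f (.inr E4) = w4 at *
  have t1 : v1 + v2 + v3 + v4 = 10 := by omega
  have t2 : w1 + w2 + w3 + w4 = 26 := by omega
  omega

/-- For even `n ≥ 2` the ladder `L_n` is super edge-magic if and only if `n ≥ 4`. -/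
theorem result : ∀ n : ℕ, 2 ≤ n → n % 2 = 0 →
    (SuperEdgeMagic (pathGraph n □ pathGraph 2) ↔ 4 ≤ n) := by
  intro n hn h2
  constructor
  · intro h
    by_contra hcon
    obtain rfl : n = 1 + 1 := by omega
    exact not_sem_two h
  · intro h4
    rcases Nat.lt_or_ge n 8 with h8 | h8
    · rcases (show n = 3 + 1 ∨ n = 5 + 1 by omega) with rfl | rfl
      · exact sem_four
      · exact sem_six
    · rcases (show n % 4 = 0 ∨ n % 4 = 2 by omega) with h | h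
      · obtain ⟨k, rfl⟩ : ∃ k, n = 4 * k + 3 + 1 := ⟨n / 4 - 1, by omega⟩
        exact sem_zero k (by omega)
      · obtain ⟨k, rfl⟩ : ∃ k, n = 4 * k + 5 + 1 := ⟨n / 4 - 1, by omega⟩
        exact sem_two k (by omega)

end Pool.Agent.Results.MP_4fbecc_co.EvenLadders
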